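import Pool.Agent.Helper5.WD.Stmts
import Pool.Agent.Helper52.UN.BGC
import Pool.Agent.Helper52.UN.BKD

set_option autoImplicit false

open Finset Pool.Agent.Helper8.UN Pool.Agent.Helper5.FV

namespace Pool.Agent.Helper5.WD

/-- adding the vertices of `T` -/
theorem grw_chain {n : ℕ} (F : Finset (Fin n) → Finset (Fin n → ℕ)) (κ : ℝ) (hκ : 0 < κ)
    (W' : Finset (Fin n))
    (hI : ∀ W1 : Finset (Fin n), W1.card ≤ W'.card → ∀ v ∈ W1,
      κ * (F (W1.erase v)).card ≤ (F W1).card) (T : Finset (Fin n)) (hT : T ⊆ W') :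
    κ ^ T.card * (F (W' \ T)).card ≤ (F W').card := by
  classical
  induction T using Finset.induction_on with
  | empty => simp
  | insert v T hv ih =>
    have h1 := ih ((subset_insert _ _).trans hT)
    have hvW : v ∈ W' := hT (mem_insert_self _ _)
    have h2 := hI (W' \ T) (card_le_card sdiff_subset) v (mem_sdiff.2 ⟨hvW, hv⟩)
    have h3 : (W' \ T).erase v = W' \ insert v T := by
      ext w
      simp only [mem_erase, mem_sdiff, mem_insert, not_or]
      tauto
    rw [h3] at h2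
    rw [card_insert_of_notMem hv, pow_succ, mul_assoc]
    exact (mul_le_mul_of_nonneg_left h2 (by positivity)).trans h1

open scoped Classical in
/-- colourings constant on `T` -/
theorem grw_mono {n : ℕ} (F : Finset (Fin n) → Finset (Fin n → ℕ)) (κ : ℝ) (hκ : 0 < κ)
    (hF : ∀ (W U : Finset (Fin n)) (a : Fin n), a ∈ U → U ⊆ W → ∀ f ∈ F W,
      (∀ u ∈ U, f u = f a) → bgc_r (U.erase a) f ∈ F (W \ U.erase a))
    (W' : Finset (Fin n))
    (hI : ∀ W1 : Finset (Fin n), W1.card ≤ W'.card → ∀ v ∈ W1,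
      κ * (F (W1.erase v)).card ≤ (F W1).card) (T : Finset (Fin n)) (hT : T ⊆ W')
    (hne : T.Nonempty) :
    κ ^ (T.card - 1) * (((F W').filter (fun f => ∃ i, ∀ u ∈ T, f u = i)).card : ℝ) ≤
      (F W').card := by
  obtain ⟨a, ha⟩ := hne
  have hconst : ∀ f : Fin n → ℕ, (∃ i, ∀ u ∈ T, f u = i) → ∀ u ∈ T, f u = f a := by
    rintro f ⟨i, hi⟩ u hu
    rw [hi u hu, hi a ha]
  have h1 : ((F W').filter (fun f => ∃ i, ∀ u ∈ T, f u = i)).card ≤
      (F (W' \ T.erase a)).card := by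
    refine card_le_card_of_injOn (bgc_r (T.erase a)) ?_ ?_
    · intro f hf
      rw [mem_coe, bgc_mf] at hf
      exact hF W' T a ha hT f hf.1 (hconst f hf.2)
    · intro f hf g hg h
      rw [mem_coe, bgc_mf] at hf hg
      exact bgc_inj T a f g (hconst f hf.2) (hconst g hg.2) h
  have h2 := grw_chain F κ hκ W' hI (T.erase a) ((erase_subset _ _).trans hT)
  rw [card_erase_of_mem ha] at h2
  refine le_trans ?_ h2
  have h3 : (((F W').filter (fun f => ∃ i, ∀ u ∈ T, f u = i)).card : ℝ) ≤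
      ((F (W' \ T.erase a)).card : ℝ) := by exact_mod_cast h1
  exact mul_le_mul_of_nonneg_left h3 (by positivity)

open scoped Classical in
/-- blocked colours -/
theorem grw_bk {n : ℕ} (E : Finset (Finset (Fin n))) (hT : Two E) (r : ℕ) (hr : 4 ≤ r)
    (W : Finset (Fin n)) (y : Fin n) (hy : y ∈ W) (k : ℕ) (f : Fin n → ℕ) :
    bk E W k f y ≤ (nb E W y).card +
      ((E.filter (fun e => (y ∈ e ∧ 3 ≤ e.card ∧ e.card < r) ∧ e ⊆ W)).filter
        (fun e => ∃ i, ∀ u ∈ e.erase y, f u = i)).card +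
      (((W.erase y).powersetCard (r - 1)).filter (fun S => ∃ i, ∀ u ∈ S, f u = i)).card := by
  unfold bk
  have hch : ∀ i, Blk E W f y i → ∃ e ∈ E, e ⊆ W ∧ y ∈ e ∧ ∀ u ∈ e, u ≠ y → f u = i :=
    fun i h => h
  choose! g hg1 hg2 hg3 hg4 using hch
  have hsplit : (Finset.Icc 1 k).filter (fun i => Blk E W f y i) ⊆
      (((Finset.Icc 1 k).filter (fun i => Blk E W f y i ∧ (g i).card = 2)) ∪
        ((Finset.Icc 1 k).filter (fun i => Blk E W f y i ∧ 3 ≤ (g i).card ∧ (g i).card < r))) ∪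
        ((Finset.Icc 1 k).filter (fun i => Blk E W f y i ∧ r ≤ (g i).card)) := by
    intro i hi
    rw [bkd_mf] at hi
    rw [mem_union, mem_union, bkd_mf, bkd_mf, bkd_mf]
    have h2 := hT (g i) (hg1 i hi.2)
    rcases lt_or_ge (g i).card r with h | h
    · rcases Nat.lt_or_ge (g i).card 3 with h3 | h3
      · exact Or.inl (Or.inl ⟨hi.1, hi.2, by omega⟩)
      · exact Or.inl (Or.inr ⟨hi.1, hi.2, h3, h⟩)
    · exact Or.inr ⟨hi.1, hi.2, h⟩
  have hA : ((Finset.Icc 1 k).filter (fun i => Blk E W f y i ∧ (g i).card = 2)).card ≤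
      (nb E W y).card := by
    have h1 : ∀ i, Blk E W f y i ∧ (g i).card = 2 → ∃ z ∈ nb E W y, f z = i := by
      rintro i ⟨hi, hc⟩
      have h2 : ((g i).erase y).card = 1 := by rw [card_erase_of_mem (hg3 i hi), hc]
      obtain ⟨z, hz⟩ := card_eq_one.1 h2
      have hz1 : z ∈ (g i).erase y := by rw [hz]; exact mem_singleton_self z
      have hz2 := mem_erase.1 hz1
      refine ⟨z, ?_, hg4 i hi z hz2.2 hz2.1⟩
      unfold nb
      rw [mem_filter]
      refine ⟨hg2 i hi hz2.2, hz2.1, ?_⟩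
      have h3 : ({y, z} : Finset (Fin n)) = g i := by
        rw [← insert_erase (hg3 i hi), hz]
      rw [h3]
      exact hg1 i hi
    haveI : Nonempty (Fin n) := ⟨y⟩
    choose! zz hz1 hz2 using h1
    refine card_le_card_of_injOn zz ?_ ?_
    · intro i hi
      rw [mem_coe, bkd_mf] at hi
      exact hz1 i hi.2
    · intro i hi j hj hij
      rw [mem_coe, bkd_mf] at hi hj
      rw [← hz2 i hi.2, ← hz2 j hj.2, hij]
  have hB : ((Finset.Icc 1 k).filter (fun i => Blk E W f y i ∧ 3 ≤ (g i).card ∧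
      (g i).card < r)).card ≤
      ((E.filter (fun e => (y ∈ e ∧ 3 ≤ e.card ∧ e.card < r) ∧ e ⊆ W)).filter
        (fun e => ∃ i, ∀ u ∈ e.erase y, f u = i)).card := by
    refine card_le_card_of_injOn g ?_ ?_
    · intro i hi
      rw [mem_coe, bkd_mf] at hi
      rw [mem_coe, bkd_mf, bkd_mf]
      refine ⟨⟨hg1 i hi.2.1, ⟨hg3 i hi.2.1, hi.2.2.1, hi.2.2.2⟩, hg2 i hi.2.1⟩, i, ?_⟩
      intro u hu
      rw [mem_erase] at hu
      exact hg4 i hi.2.1 u hu.2 hu.1
    · intro i hi j hj hij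
      rw [mem_coe, bkd_mf] at hi hj
      refine bkd_det E hT f y i j (g i) (hg1 i hi.2.1) (hg4 i hi.2.1) ?_
      rw [hij]
      exact hg4 j hj.2.1
  have hC : ((Finset.Icc 1 k).filter (fun i => Blk E W f y i ∧ r ≤ (g i).card)).card ≤
      (((W.erase y).powersetCard (r - 1)).filter (fun S => ∃ i, ∀ u ∈ S, f u = i)).card := by
    have h1 : ∀ i, Blk E W f y i ∧ r ≤ (g i).card → ∃ S ∈ (W.erase y).powersetCard (r - 1),
        ∀ u ∈ S, f u = i := by
      rintro i ⟨hi, hc⟩
      have h2 : r - 1 ≤ ((g i).erase y).card := by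
        rw [card_erase_of_mem (hg3 i hi)]
        omega
      obtain ⟨S, hS1, hS2⟩ := exists_subset_card_eq h2
      refine ⟨S, mem_powersetCard.2 ⟨hS1.trans (erase_subset_erase y (hg2 i hi)), hS2⟩, ?_⟩
      intro u hu
      have h3 := mem_erase.1 (hS1 hu)
      exact hg4 i hi u h3.2 h3.1
    choose! SS1 hS1 hS2 using h1
    refine card_le_card_of_injOn SS1 ?_ ?_
    · intro i hi
      rw [mem_coe, bkd_mf] at hi
      rw [mem_coe, bkd_mf]
      exact ⟨hS1 i hi.2, i, hS2 i hi.2⟩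
    · intro i hi j hj hij
      rw [mem_coe, bkd_mf] at hi hj
      have h2 := (mem_powersetCard.1 (hS1 i hi.2)).2
      have h3 : (SS1 i).Nonempty := by
        rw [← card_pos, h2]
        omega
      obtain ⟨u, hu⟩ := h3
      rw [← hS2 i hi.2 u hu]
      rw [hij] at hu
      rw [hS2 j hj.2 u hu]
  refine (card_le_card hsplit).trans ?_
  refine (card_union_le _ _).trans ?_
  refine add_le_add ((card_union_le _ _).trans (add_le_add hA hB)) hC

open scoped Classical in
/-- the average number of blocked colours -/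
theorem grw_sum {n : ℕ} (E : Finset (Finset (Fin n))) (hT : Two E) (r D0 : ℕ) (hr : 4 ≤ r)
    (hNB : NB E D0)
    (F : Finset (Fin n) → Finset (Fin n → ℕ)) (κ κ0 : ℝ) (hκ0 : 0 < κ0) (hκ : κ0 ≤ κ)
    (hF : ∀ (W U : Finset (Fin n)) (a : Fin n), a ∈ U → U ⊆ W → ∀ f ∈ F W,
      (∀ u ∈ U, f u = f a) → bgc_r (U.erase a) f ∈ F (W \ U.erase a))
    (W : Finset (Fin n)) (y : Fin n) (hy : y ∈ W)
    (hI : ∀ W1 : Finset (Fin n), W1.card ≤ (W.erase y).card → ∀ v ∈ W1,
      κ * (F (W1.erase v)).card ≤ (F W1).card)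
    (hws : ws E r κ0 y + n.choose (r - 1) / κ0 ^ (r - 2) ≤ 1) (k : ℕ) :
    ∑ f ∈ F (W.erase y), (bk E W k f y : ℝ) ≤ (D0 + 1) * (F (W.erase y)).card := by
  have hκp : 0 < κ := lt_of_lt_of_le hκ0 hκ
  set W' := W.erase y with hW'
  set N : ℝ := ((F W').card : ℝ) with hN
  have hN0 : 0 ≤ N := Nat.cast_nonneg _
  have hmono : ∀ T : Finset (Fin n), T ⊆ W' → T.Nonempty →
      (((F W').filter (fun f => ∃ i, ∀ u ∈ T, f u = i)).card : ℝ) ≤
        N * (1 / κ) ^ (T.card - 1) := by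
    intro T hT1 hT2
    have h1 := grw_mono F κ hκp hF W' hI T hT1 hT2
    rw [one_div, inv_pow, ← div_eq_mul_inv, le_div_iff₀ (by positivity), mul_comm]
    exact h1
  set E1 := E.filter (fun e => (y ∈ e ∧ 3 ≤ e.card ∧ e.card < r) ∧ e ⊆ W) with hE1
  have hb : ∀ f, (bk E W k f y : ℝ) ≤ D0 +
      ((E1.filter (fun e => ∃ i, ∀ u ∈ e.erase y, f u = i)).card : ℝ) +
      (((W'.powersetCard (r - 1)).filter (fun S => ∃ i, ∀ u ∈ S, f u = i)).card : ℝ) := by
    intro f
    have h1 := grw_bk E hT r hr W y hy k f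
    have h2 := hNB W y
    have h3 : bk E W k f y ≤ D0 +
      (E1.filter (fun e => ∃ i, ∀ u ∈ e.erase y, f u = i)).card +
      ((W'.powersetCard (r - 1)).filter (fun S => ∃ i, ∀ u ∈ S, f u = i)).card := by
      refine h1.trans ?_
      exact add_le_add (add_le_add h2 le_rfl) le_rfl
    exact_mod_cast h3
  have hs1 : ∑ f ∈ F W', ((E1.filter (fun e => ∃ i, ∀ u ∈ e.erase y, f u = i)).card : ℝ) ≤
      N * ws E r κ0 y := by
    have h1 : ∑ f ∈ F W', (E1.filter (fun e => ∃ i, ∀ u ∈ e.erase y, f u = i)).card =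
        ∑ e ∈ E1, ((F W').filter (fun f => ∃ i, ∀ u ∈ e.erase y, f u = i)).card :=
      sum_card_bipartiteAbove_eq_sum_card_bipartiteBelow
        (r := fun (f : Fin n → ℕ) (e : Finset (Fin n)) => ∃ i, ∀ u ∈ e.erase y, f u = i)
    have h2 : ∑ f ∈ F W', ((E1.filter (fun e => ∃ i, ∀ u ∈ e.erase y, f u = i)).card : ℝ) =
        ∑ e ∈ E1, (((F W').filter (fun f => ∃ i, ∀ u ∈ e.erase y, f u = i)).card : ℝ) := by
      exact_mod_cast h1
    rw [h2]
    calc ∑ e ∈ E1, (((F W').filter (fun f => ∃ i, ∀ u ∈ e.erase y, f u = i)).card : ℝ)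
        ≤ ∑ e ∈ E1, N * (1 / κ0) ^ (e.card - 2) := by
          apply sum_le_sum
          intro e he
          rw [hE1, mem_filter] at he
          obtain ⟨-, ⟨hye, h3, -⟩, heW⟩ := he
          have h4 : (e.erase y).card = e.card - 1 := card_erase_of_mem hye
          have h5 := hmono (e.erase y) (erase_subset_erase y heW)
            (by rw [← card_pos, h4]; omega)
          rw [h4] at h5
          refine h5.trans ?_
          have h6 : e.card - 1 - 1 = e.card - 2 := by omega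
          rw [h6]
          gcongr
      _ = N * ∑ e ∈ E1, (1 / κ0) ^ (e.card - 2) := by rw [mul_sum]
      _ ≤ N * ws E r κ0 y := by
          refine mul_le_mul_of_nonneg_left ?_ hN0
          unfold ws
          refine sum_le_sum_of_subset_of_nonneg ?_ (fun e _ _ => by positivity)
          intro e he
          rw [hE1, mem_filter] at he
          rw [mem_filter]
          exact ⟨he.1, he.2.1⟩
  have hs2 : ∑ f ∈ F W', (((W'.powersetCard (r - 1)).filter
      (fun S => ∃ i, ∀ u ∈ S, f u = i)).card : ℝ) ≤ N * (n.choose (r - 1) / κ0 ^ (r - 2)) := by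
    have h1 : ∑ f ∈ F W', ((W'.powersetCard (r - 1)).filter
        (fun S => ∃ i, ∀ u ∈ S, f u = i)).card =
        ∑ S ∈ W'.powersetCard (r - 1),
          ((F W').filter (fun f => ∃ i, ∀ u ∈ S, f u = i)).card :=
      sum_card_bipartiteAbove_eq_sum_card_bipartiteBelow
        (r := fun (f : Fin n → ℕ) (S : Finset (Fin n)) => ∃ i, ∀ u ∈ S, f u = i)
    have h2 : ∑ f ∈ F W', (((W'.powersetCard (r - 1)).filter
        (fun S => ∃ i, ∀ u ∈ S, f u = i)).card : ℝ) =
        ∑ S ∈ W'.powersetCard (r - 1),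
          (((F W').filter (fun f => ∃ i, ∀ u ∈ S, f u = i)).card : ℝ) := by
      exact_mod_cast h1
    rw [h2]
    calc ∑ S ∈ W'.powersetCard (r - 1),
          (((F W').filter (fun f => ∃ i, ∀ u ∈ S, f u = i)).card : ℝ)
        ≤ ∑ S ∈ W'.powersetCard (r - 1), N * (1 / κ0) ^ (r - 2) := by
          apply sum_le_sum
          intro S hS
          obtain ⟨h3, h4⟩ := mem_powersetCard.1 hS
          have h5 := hmono S h3 (by rw [← card_pos, h4]; omega)
          rw [h4] at h5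
          refine h5.trans ?_
          have h6 : r - 1 - 1 = r - 2 := by omega
          rw [h6]
          gcongr
      _ = (W'.card.choose (r - 1) : ℝ) * (N * (1 / κ0) ^ (r - 2)) := by
          rw [sum_const, card_powersetCard, nsmul_eq_mul]
      _ ≤ (n.choose (r - 1) : ℝ) * (N * (1 / κ0) ^ (r - 2)) := by
          have h7 : W'.card ≤ n := by
            have := card_le_univ W'
            rwa [Fintype.card_fin] at this
          have h8 : W'.card.choose (r - 1) ≤ n.choose (r - 1) := Nat.choose_le_choose _ h7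
          have h9 : (W'.card.choose (r - 1) : ℝ) ≤ n.choose (r - 1) := by exact_mod_cast h8
          gcongr
      _ = _ := by
          rw [one_div, inv_pow]
          ring
  calc ∑ f ∈ F W', (bk E W k f y : ℝ)
      ≤ ∑ f ∈ F W', ((D0 : ℝ) +
        ((E1.filter (fun e => ∃ i, ∀ u ∈ e.erase y, f u = i)).card : ℝ) +
        (((W'.powersetCard (r - 1)).filter (fun S => ∃ i, ∀ u ∈ S, f u = i)).card : ℝ)) :=
        sum_le_sum fun f _ => hb f
    _ = N * D0 + ∑ f ∈ F W', ((E1.filter (fun e => ∃ i, ∀ u ∈ e.erase y, f u = i)).card : ℝ) +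
        ∑ f ∈ F W', (((W'.powersetCard (r - 1)).filter
          (fun S => ∃ i, ∀ u ∈ S, f u = i)).card : ℝ) := by
        rw [sum_add_distrib, sum_add_distrib, sum_const, nsmul_eq_mul]
    _ ≤ N * D0 + N * ws E r κ0 y + N * (n.choose (r - 1) / κ0 ^ (r - 2)) := by
        linarith
    _ = N * D0 + N * (ws E r κ0 y + n.choose (r - 1) / κ0 ^ (r - 2)) := by ring
    _ ≤ N * D0 + N * 1 := by gcongr
    _ = (D0 + 1) * N := by ring

theorem grw_fin {n : ℕ} (E : Finset (Finset (Fin n))) (W : Finset (Fin n)) (y : Fin n) (k : ℕ)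
    (A : Finset (Fin n → ℕ)) (D : ℝ) (P : ℝ)
    (h1 : ∑ f ∈ A, (bk E W k f y : ℝ) ≤ D * A.card)
    (h2 : ((∑ f ∈ A, (k - bk E W k f y) : ℕ) : ℝ) ≤ P) : ((k : ℝ) - D) * A.card ≤ P := by
  refine le_trans ?_ h2
  have h3 : ∑ f ∈ A, ((k : ℝ) - bk E W k f y) ≤ ((∑ f ∈ A, (k - bk E W k f y) : ℕ) : ℝ) := by
    rw [Nat.cast_sum]
    apply sum_le_sum
    intro f _
    have : k ≤ (k - bk E W k f y) + bk E W k f y := by omega
    have h4 : (k : ℝ) ≤ ((k - bk E W k f y : ℕ) : ℝ) + bk E W k f y := by exact_mod_cast this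
    linarith
  rw [sum_sub_distrib, sum_const, nsmul_eq_mul] at h3
  linarith

theorem st_GRW (hCNT : ST_CNT) : ST_GRW := by
  classical
  intro n D0 r k0 E hT hr hk0 hNB hws k hk
  have hkD : D0 + 1 < k := lt_of_lt_of_le hk0 hk
  have hκ0 : (0:ℝ) < (k0 : ℝ) - (D0 + 1) := by
    have : ((D0 + 1 : ℕ) : ℝ) < k0 := by exact_mod_cast hk0
    push_cast at this
    linarith
  have hκ : (k0 : ℝ) - (D0 + 1) ≤ (k : ℝ) - (D0 + 1) := by
    have : (k0 : ℝ) ≤ k := by exact_mod_cast hk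
    linarith
  have key : ∀ m : ℕ, ∀ W : Finset (Fin n), W.card = m → ∀ y ∈ W,
      ((k : ℝ) - (D0 + 1)) * (CC E (W.erase y) k).card ≤ (CC E W k).card ∧
      ((k : ℝ) - (D0 + 1)) * (SS E (W.erase y) k).card ≤ (SS E W k).card := by
    intro m
    induction m using Nat.strong_induction_on with
    | _ m ih =>
      intro W hW y hy
      have hlt : (W.erase y).card < m := by
        rw [← hW]
        exact card_erase_lt_of_mem hy
      obtain ⟨c1, c2⟩ := hCNT n k E W y hT hy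
      have s1 := grw_sum E hT r D0 hr hNB (fun W => CC E W k) ((k : ℝ) - (D0 + 1))
        ((k0 : ℝ) - (D0 + 1)) hκ0 hκ (fun W U a _ _ f hf _ => bgc_cc E W _ k f hf) W y hy
        (fun W1 hW1 v hv => (ih W1.card (lt_of_le_of_lt hW1 hlt) W1 rfl v hv).1) (hws y) k
      have s2 := grw_sum E hT r D0 hr hNB (fun W => SS E W k) ((k : ℝ) - (D0 + 1))
        ((k0 : ℝ) - (D0 + 1)) hκ0 hκ
        (fun W U a ha hU f hf hc => bgc_ss E W U k a ha hU f hf hc) W y hy
        (fun W1 hW1 v hv => (ih W1.card (lt_of_le_of_lt hW1 hlt) W1 rfl v hv).2) (hws y) k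
      refine ⟨grw_fin E W y k _ _ _ s1 ?_, grw_fin E W y k _ _ _ s2 ?_⟩
      · rw [← c1]
        exact le_rfl
      · exact_mod_cast c2
  intro W y hy
  obtain ⟨h1, h2⟩ := key W.card W rfl y hy
  have hc : ((k - (D0 + 1) : ℕ) : ℝ) = (k : ℝ) - (D0 + 1) := by
    rw [Nat.cast_sub hkD.le]
    push_cast
    ring
  rw [← hc] at h1 h2
  exact ⟨by exact_mod_cast h1, by exact_mod_cast h2⟩

end Pool.Agent.Helper5.WD
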